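import Mathlib
import Pool.Agent.H6.Bnr

set_option autoImplicit false

namespace Pool.Agent.Results.MP_20154b_co.Counter

/-- a broadcast: `f v` is at most the eccentricity of `v` -/
def Broadcast {V : Type} (G : SimpleGraph V) (f : V → ℕ) : Prop := ∀ v, (f v : ℕ∞) ≤ G.eccent v

/-- `u` hears `f` -/
def Hears {V : Type} (G : SimpleGraph V) (f : V → ℕ) (u : V) : Prop :=
  ∃ v, 1 ≤ f v ∧ G.dist u v ≤ f v

/-- dominating broadcast -/
def DomB {V : Type} (G : SimpleGraph V) (f : V → ℕ) : Prop := Broadcast G f ∧ ∀ u, Hears G f u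

/-- minimal dominating broadcast -/
def MinDomB {V : Type} (G : SimpleGraph V) (f : V → ℕ) : Prop :=
  DomB G f ∧ ∀ g, g < f → ¬ DomB G g

/-- boundary independence -/
def BnIndep {V : Type} (G : SimpleGraph V) (f : V → ℕ) : Prop :=
  ∀ u v, u ≠ v → 0 < f u → 0 < f v → ∀ x, G.dist x u ≤ f u → G.dist x v ≤ f v →
    G.dist x u = f u ∧ G.dist x v = f v

/-- irredundance: every broadcasting vertex has a nonempty private boundary -/
def Irred {V : Type} [DecidableEq V] (G : SimpleGraph V) (f : V → ℕ) : Prop :=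
  ∀ v, 0 < f v → ∃ u, G.dist u v ≤ f v ∧ ¬ Hears G (Function.update f v (f v - 1)) u

open Pool.Agent.H6.Bnr in
theorem result : ∃ (n : ℕ) (G : SimpleGraph (Fin n)),
    3 ≤ n ∧ G.Connected ∧ (∀ v, (G.induce {v}ᶜ).Connected) ∧
    ∃ f, Broadcast G f ∧ BnIndep G f ∧ Irred G f ∧ ∀ g, MinDomB G g → ∑ v, g v < ∑ v, f v :=
  ⟨12, G, by norm_num, ⟨fun u w => (rd u w).1⟩, two, f0, main⟩

end Pool.Agent.Results.MP_20154b_co.Counter
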